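import Pool.Agent.U792.ND.Main
import Pool.Agent.H820R3.DG.Count

/-!
# The number of nonzero digits of quadratic irrationals
-/

set_option autoImplicit false
set_option linter.unusedSectionVars false

open Finset

namespace Pool.Agent.U792.ND

open Pool.Agent.H394R2.Ones Pool.Agent.U278.SD

/-- from the squares to the numbers -/
lemma finish' {κ2 K C3 n : ℝ} (hκ : 0 ≤ κ2) (hK : 0 ≤ K) (hC : 0 ≤ C3)
    (h : κ2 * n ≤ K ^ 2 + C3 * (K + 1)) :
    Real.sqrt κ2 * Real.sqrt n ≤ K + (C3 / 2 + 1) := by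
  rw [← Real.sqrt_mul hκ]
  apply Real.sqrt_le_left (by positivity) |>.mpr
  nlinarith

/-- from the inequality with a small linear term to the asymptotic bound -/
lemma asym {κ2 : ℝ} (hκ2 : 0 ≤ κ2) {N : ℕ → ℝ} (hN : ∀ n, 0 ≤ N n)
    (h : ∀ θ : ℝ, 0 < θ → ∃ C3 : ℝ, 0 ≤ C3 ∧ ∀ n : ℕ,
      κ2 * n ≤ N n ^ 2 + C3 * (N n + 1) + θ * n) (ε : ℝ) (hε : 0 < ε) :
    ∃ n0 : ℕ, ∀ n : ℕ, n0 ≤ n → (Real.sqrt κ2 - ε) * Real.sqrt n ≤ N n := by
  set κ := Real.sqrt κ2 with hκ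
  have hκ0 : 0 ≤ κ := Real.sqrt_nonneg _
  have hκκ : κ ^ 2 = κ2 := Real.sq_sqrt hκ2
  rcases le_or_gt κ ε with hle | hlt
  · refine ⟨0, fun n _ => ?_⟩
    have := Real.sqrt_nonneg (n : ℝ)
    have := hN n
    nlinarith
  obtain ⟨C3, hC3, h1⟩ := h (κ * ε / 2) (by have := mul_pos (by linarith : 0 < κ) hε; linarith)
  obtain ⟨n1, hn1⟩ := exists_nat_ge ((2 * (C3 / 2 + 1) / ε) ^ 2)
  refine ⟨n1, fun n hn => ?_⟩
  have h2 := h1 n
  have hn0 : (0 : ℝ) ≤ n := Nat.cast_nonneg _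
  have h3 := finish' (κ2 := κ2 - κ * ε / 2) (n := n) (by rw [← hκκ]; nlinarith) (hN n) hC3
    (by linarith)
  have h7 : κ - ε / 2 ≤ Real.sqrt (κ2 - κ * ε / 2) := by
    apply Real.le_sqrt_of_sq_le
    rw [← hκκ]
    nlinarith
  have h5 : 2 * (C3 / 2 + 1) / ε ≤ Real.sqrt n := by
    apply Real.le_sqrt_of_sq_le
    exact hn1.trans (by exact_mod_cast hn)
  rw [div_le_iff₀ hε] at h5
  have h6 := Real.sqrt_nonneg (n : ℝ)
  nlinarith

/-- the constant -/
noncomputable def JJ (b A : ℕ) : ℕ := Nat.log b (2 * A / Nat.gcd b (2 * A) * (b - 1) ^ 2 + (b - 1))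

section
variable {b : ℕ} {y : ℝ}

/-- the number of nonzero digits of quadratic irrationals in `(0, 1)` -/
theorem quad_nd (hb : 2 ≤ b) (hy0 : 0 < y) (hy1 : y < 1) (hirr : Irrational y) {A : ℕ} {Bc C : ℤ}
    (hA : 1 ≤ A) (hq : (A : ℝ) * y ^ 2 + Bc * y + C = 0) (ε : ℝ) (hε : 0 < ε) :
    ∃ n0 : ℕ, ∀ n : ℕ, n0 ≤ n →
      (Real.sqrt (11 / (5 * (JJ b A : ℕ))) - ε) * Real.sqrt n ≤ kk b y n := by
  have hbR : (2 : ℝ) ≤ b := by exact_mod_cast hb
  have hAR : (1 : ℝ) ≤ A := by exact_mod_cast hA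
  have halg : IsAlgebraic ℚ y := by
    refine ⟨Polynomial.C (A : ℚ) * Polynomial.X ^ 2 + Polynomial.C (Bc : ℚ) * Polynomial.X +
      Polynomial.C (C : ℚ), ?_, ?_⟩
    · intro h
      have h1 := congrArg (fun p => Polynomial.coeff p 2) h
      simp only [Polynomial.coeff_add, Polynomial.coeff_C_mul, Polynomial.coeff_X_pow,
        Polynomial.coeff_X, Polynomial.coeff_C, Polynomial.coeff_zero] at h1
      norm_num at h1
      omega
    · simp only [map_add, map_mul, map_pow, Polynomial.aeval_X, Polynomial.aeval_C]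
      simpa using hq
  refine asym (by positivity) (fun n => Nat.cast_nonneg _) ?_ ε hε
  intro θ hθ
  set Z : ℕ → ℤ := fun k => -C * (b : ℤ) ^ k - A * S b y k - Bc * B b y k with hZdef
  have hZ : ∀ k, 0 ≤ k → (Z k : ℝ) = A * T b y k + Bc * ep b y k := by
    intro k _
    rw [hZdef]
    unfold T ep
    push_cast
    linear_combination -((b : ℝ) ^ k) * hq
  set Ce : ℝ := 2 * (Bc.natAbs + A + 2) with hCe
  have hCe4 : 4 ≤ Ce := by
    rw [hCe]
    have h1 : (0 : ℝ) ≤ Bc.natAbs := Nat.cast_nonneg _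
    linarith
  set δ : ℝ := min (1 / 4) (θ / (8 * Ce)) with hδ
  have hδ0 : 0 < δ := by
    rw [hδ]
    apply lt_min (by norm_num)
    apply div_pos hθ (by linarith)
  have hδ1 : δ ≤ 1 / 4 := min_le_left _ _
  have hδ2 : 8 * Ce * δ ≤ θ := by
    have : δ ≤ θ / (8 * Ce) := min_le_right _ _
    rw [le_div_iff₀ (by linarith)] at this
    linarith
  obtain ⟨C1, hC10, hC1⟩ := Pool.Agent.H820R3.DG.bad_count hb hy0 hy1 halg hirr |(Bc : ℝ)| δ hδ0
    hδ1
  refine ⟨(8 * Ce * (2 * b + 0 + 1) + 260 * (A * b + A + Bc.natAbs) + 220) +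
    8 * Ce * (C1 * (b + 1)) + θ, by positivity, fun n => ?_⟩
  have hkk : (0 : ℝ) ≤ kk b y n := Nat.cast_nonneg _
  have hn0 : (0 : ℝ) ≤ n := Nat.cast_nonneg _
  have hW : ∑ m ∈ range (n + 1), (if Z m ≤ 0 then (1 : ℝ) else 0) ≤
      C1 * ((b + 1) * (kk b y n + 1)) + δ * (n + 1) := by
    have h1 := hC1 (n + 1)
    have h2 : ∑ m ∈ range (n + 1), (if Z m ≤ 0 then (1 : ℝ) else 0) ≤
        (((range (n + 1)).filter (fun m => T b y m ≤ |(Bc : ℝ)| * ep b y m)).card : ℝ) := by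
      rw [card_filter]
      push_cast
      refine sum_le_sum fun m _ => ?_
      by_cases hz : Z m ≤ 0
      · rw [if_pos hz, if_pos]
        by_contra hcon
        push Not at hcon
        have h3 : (Z m : ℝ) ≤ 0 := by exact_mod_cast hz
        rw [hZ m (Nat.zero_le _)] at h3
        have h4 := ep_nonneg (b := b) hy0 m
        have h5 : -|(Bc : ℝ)| * ep b y m ≤ Bc * ep b y m :=
          mul_le_mul_of_nonneg_right (neg_abs_le _) h4
        have h6 := T_pos hb hy0 hy1 hirr m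
        nlinarith
      · rw [if_neg hz]
        split_ifs <;> norm_num
    have h3 : (K b y (n + 1) : ℝ) ≤ b * (kk b y n + 1) := by
      have e1 : K b y (n + 1) ≤ b * (kk b y n + 1) :=
        (K_le_kk hb (n + 1)).trans (Nat.mul_le_mul_left _ (kk_succ_le n))
      exact_mod_cast e1
    have h4 : C1 * (K b y (n + 1) + 1) ≤ C1 * ((b + 1) * (kk b y n + 1)) :=
      mul_le_mul_of_nonneg_left (by linarith) hC10
    push_cast at h1
    linarith
  have hmain := nd_main hb hy0 hy1 hirr hA hZ hW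
  rw [← hCe] at hmain
  unfold JJ
  have h1 : 8 * Ce * (C1 * ((b + 1) * (kk b y n + 1)) + δ * (n + 1)) ≤
      8 * Ce * (C1 * (b + 1)) * (kk b y n + 1) + θ * n + θ := by
    have := mul_le_mul_of_nonneg_right hδ2 (by linarith : (0 : ℝ) ≤ n + 1)
    linarith
  have h2 : θ ≤ θ * ((kk b y n : ℝ) + 1) := by nlinarith
  push_cast at hmain ⊢
  linarith

/-- the number of nonzero digits of `√D / b^t` -/
theorem pure_nd (hb : 2 ≤ b) (hy0 : 0 < y) (hy1 : y < 1) (hirr : Irrational y) {s : ℕ}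
    (hs : ∃ D : ℤ, y ^ 2 * (b : ℝ) ^ s = D) :
    ∃ C : ℝ, ∀ n : ℕ, Real.sqrt (11 / (5 * (JJ b 1 : ℕ))) * Real.sqrt n - C ≤ kk b y n := by
  obtain ⟨D, hD⟩ := hs
  set Z : ℕ → ℤ := fun k => D * (b : ℤ) ^ (k - s) - S b y k with hZdef
  have hZ : ∀ k, s ≤ k → (Z k : ℝ) = ((1 : ℕ) : ℝ) * T b y k + ((0 : ℤ) : ℝ) * ep b y k := by
    intro k hk
    obtain ⟨j, rfl⟩ := Nat.exists_eq_add_of_le hk
    rw [hZdef]
    unfold T
    push_cast
    rw [Nat.add_sub_cancel_left, ← hD, pow_add]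
    ring
  have hW : ∀ n : ℕ, ∑ m ∈ range (n + 1), (if Z m ≤ 0 then (1 : ℝ) else 0) ≤ (s : ℝ) + 1 := by
    intro n
    have h1 := few_sum s (n + 1) 1 (by norm_num)
    rw [one_mul] at h1
    refine le_trans (sum_le_sum fun m _ => ?_) h1
    by_cases hms : m ≤ s
    · rw [if_pos hms]
      split_ifs <;> norm_num
    · rw [if_neg hms, if_neg]
      have h2 := hZ m (by omega)
      have h3 := T_pos hb hy0 hy1 hirr m
      push_cast at h2
      have h4 : (0 : ℝ) < Z m := by rw [h2]; linarith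
      have h5 : 0 < Z m := by exact_mod_cast h4
      omega
  set C3 : ℝ := (8 * (2 * (((0 : ℤ).natAbs : ℕ) + ((1 : ℕ) : ℝ) + 2)) * (2 * b + s + 1) +
    260 * (((1 : ℕ) : ℝ) * b + ((1 : ℕ) : ℝ) + ((0 : ℤ).natAbs : ℕ)) + 220) +
    8 * (2 * (((0 : ℤ).natAbs : ℕ) + ((1 : ℕ) : ℝ) + 2)) * (s + 1) with hC3
  refine ⟨C3 / 2 + 1, fun n => ?_⟩
  have hkk : (0 : ℝ) ≤ kk b y n := Nat.cast_nonneg _
  have hmain := nd_main hb hy0 hy1 hirr (le_refl 1) hZ (hW n)
  have hC30 : 0 ≤ C3 := by rw [hC3]; positivity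
  have h1 := finish' (κ2 := 11 / (5 * (JJ b 1 : ℕ))) (n := n) (by positivity) hkk hC30 (by
    unfold JJ
    refine hmain.trans ?_
    rw [hC3]
    have h2 : (0 : ℝ) ≤ 8 * (2 * (((0 : ℤ).natAbs : ℕ) + ((1 : ℕ) : ℝ) + 2)) * (s + 1) *
      kk b y n := by positivity
    linarith)
  linarith

end

end Pool.Agent.U792.ND
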