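import Mathlib

/-!
# One step of the recurrence, measured by logarithms
-/

set_option autoImplicit false

open Finset

namespace Pool.Agent.U792.ND

lemma bern (Y p : ℕ) : 1 + Y * p ≤ (Y + 1) ^ p := by
  induction p with
  | zero => simp
  | succ p ih =>
    rw [pow_succ]
    have h1 : (1 + Y * p) * (Y + 1) ≤ (Y + 1) ^ p * (Y + 1) := Nat.mul_le_mul_right _ ih
    nlinarith [Nat.zero_le (Y * p * Y)]

lemma succ_le_pow {b : ℕ} (hb : 2 ≤ b) (n : ℕ) : 1 + n ≤ b ^ n := by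
  have h1 : n < 2 ^ n := Nat.lt_two_pow_self
  have h2 : 2 ^ n ≤ b ^ n := Nat.pow_le_pow_left hb n
  omega

lemma half_le_pow {b : ℕ} (hb : 2 ≤ b) (n : ℕ) : 1 + n ≤ b ^ (n / 2 + 1) := by
  have h1 := succ_le_pow hb (n / 2)
  rw [pow_succ]
  have h2 : b ^ (n / 2) * 2 ≤ b ^ (n / 2) * b := Nat.mul_le_mul_left _ hb
  omega

/-- one good step -/
lemma good_step {b α p u v J : ℕ} (hb : 2 ≤ b) (hu : 1 ≤ u) (hJ : α + b ≤ b ^ (J + 1))
    (h : b * u ≤ v + α * p) : 1 + Nat.log b u ≤ J * p + Nat.log b v := by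
  by_contra hcon
  push Not at hcon
  have h1 : b ^ Nat.log b u ≤ u := Nat.pow_log_le_self b (by omega)
  have h2 : v < b ^ (Nat.log b v + 1) := Nat.lt_pow_succ_log_self (by omega) v
  have h3 : b ^ (J * p + Nat.log b v + 1) ≤ b ^ (Nat.log b u + 1) :=
    Nat.pow_le_pow_right (by omega) (by omega)
  have h4 : b ^ (Nat.log b u + 1) ≤ b * u := by
    rw [pow_succ, mul_comm]; exact Nat.mul_le_mul_left _ h1
  obtain ⟨Y, hY⟩ : ∃ Y, b ^ J = Y + 1 :=
    ⟨b ^ J - 1, by have : 0 < b ^ J := Nat.pow_pos (by omega); omega⟩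
  have h5 : α ≤ b * Y := by
    rw [pow_succ, hY] at hJ
    nlinarith
  have h6 := bern Y p
  have h7 : b ^ (J * p + Nat.log b v + 1) = b ^ (Nat.log b v + 1) * (Y + 1) ^ p := by
    rw [← hY, ← pow_mul, ← pow_add]
    congr 1; ring
  have h8 : b ^ (Nat.log b v + 1) * (1 + Y * p) ≤ b ^ (Nat.log b v + 1) * (Y + 1) ^ p :=
    Nat.mul_le_mul_left _ h6
  have h9 : b ≤ b ^ (Nat.log b v + 1) := by
    calc b = b ^ 1 := (pow_one b).symm
      _ ≤ _ := Nat.pow_le_pow_right (by omega) (by omega)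
  have h10 : b * (Y * p) ≤ b ^ (Nat.log b v + 1) * (Y * p) := Nat.mul_le_mul_right _ h9
  have h11 : α * p ≤ b * Y * p := Nat.mul_le_mul_right _ h5
  nlinarith

/-- any step -/
lemma rough_step {b A Bm ρ U V g : ℕ} (hb : 2 ≤ b) (hg : 1 ≤ g) (hgb : g ≤ b)
    (h : b * U ≤ V + b * (b * (A * ρ)) + b * Bm) :
    Nat.log b (U / g) ≤ Nat.log b (V / g) + ρ / 2 + (Bm + A + 1) := by
  have h2 : V / g < b ^ (Nat.log b (V / g) + 1) := Nat.lt_pow_succ_log_self (by omega) _
  set t := Nat.log b (V / g) with ht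
  rw [Nat.div_lt_iff_lt_mul (by omega)] at h2
  have h3 : b * U < b * (b ^ t * g + b * (A * ρ) + Bm) := by
    calc b * U ≤ V + b * (b * (A * ρ)) + b * Bm := h
      _ < b ^ (t + 1) * g + b * (b * (A * ρ)) + b * Bm := by omega
      _ = _ := by rw [pow_succ]; ring
  have h4 : U < b ^ t * g + b * (A * ρ) + Bm := Nat.lt_of_mul_lt_mul_left h3
  have hbt : 1 ≤ b ^ t := Nat.one_le_pow _ _ (by omega)
  have h5 : b ^ t * g + b * (A * ρ) + Bm ≤ b ^ (t + 1) * ((1 + Bm) * (1 + A) * (1 + ρ)) := by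
    have e1 : b ^ t * g ≤ b ^ t * b := Nat.mul_le_mul_left _ hgb
    have e2 : b * (A * ρ) ≤ b ^ t * b * (A * ρ) := by
      apply Nat.mul_le_mul_right
      nlinarith
    have e3 : Bm ≤ b ^ t * b * Bm := by
      have : 1 ≤ b ^ t * b := by nlinarith
      nlinarith
    have e4 : 1 + A * ρ + Bm ≤ (1 + Bm) * (1 + A) * (1 + ρ) := by
      have : 0 ≤ A + ρ + Bm * (A + ρ + A * ρ) := Nat.zero_le _
      nlinarith
    calc b ^ t * g + b * (A * ρ) + Bm ≤ b ^ t * b + b ^ t * b * (A * ρ) + b ^ t * b * Bm := by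
          omega
      _ = b ^ (t + 1) * (1 + A * ρ + Bm) := by rw [pow_succ]; ring
      _ ≤ _ := Nat.mul_le_mul_left _ e4
  have h6 : b ^ (t + 1) * ((1 + Bm) * (1 + A) * (1 + ρ)) ≤
      b ^ (t + 1 + Bm + A + (ρ / 2 + 1)) := by
    have e1 := succ_le_pow hb Bm
    have e2 := succ_le_pow hb A
    have e3 := half_le_pow hb ρ
    rw [pow_add _ (t + 1 + Bm + A), pow_add _ (t + 1 + Bm), pow_add _ (t + 1)]
    calc b ^ (t + 1) * ((1 + Bm) * (1 + A) * (1 + ρ))
        ≤ b ^ (t + 1) * (b ^ Bm * b ^ A * b ^ (ρ / 2 + 1)) :=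
          Nat.mul_le_mul_left _ (Nat.mul_le_mul (Nat.mul_le_mul e1 e2) e3)
      _ = _ := by ring
  have h7 : U / g < b ^ (t + 1 + Bm + A + (ρ / 2 + 1)) :=
    lt_of_le_of_lt (Nat.div_le_self _ _) (by omega)
  rcases Nat.eq_zero_or_pos (U / g) with h8 | h8
  · rw [h8, Nat.log_zero_right]; omega
  · have := Nat.log_lt_of_lt_pow (by omega) h7
    omega

/-- the parity of the number of ordered pairs -/
lemma pair_even (f : ℕ → ℕ) (m : ℕ) (h : m % 2 = 0 → f (m / 2) = 0) :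
    ∃ p, ∑ q ∈ antidiagonal m, f q.1 * f q.2 = 2 * p := by
  have key : ∀ p ∈ antidiagonal m, (Prod.swap p) ∈ antidiagonal m := by
    intro p hp
    rw [HasAntidiagonal.mem_antidiagonal] at hp ⊢
    simpa [add_comm] using hp
  have hz : ((∑ q ∈ antidiagonal m, f q.1 * f q.2 : ℕ) : ZMod 2) = 0 := by
    rw [Nat.cast_sum]
    refine sum_involution (fun p _ => Prod.swap p) ?_ ?_ key ?_
    · intro p _
      simp only [Prod.fst_swap, Prod.snd_swap]
      push_cast
      rw [mul_comm ((f p.2 : ℕ) : ZMod 2)]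
      exact CharTwo.add_self_eq_zero _
    · intro p hp hne heq
      rw [HasAntidiagonal.mem_antidiagonal] at hp
      have h1 : p.2 = p.1 := by
        have := congrArg Prod.fst heq
        simpa using this
      have h2 : m % 2 = 0 := by omega
      have h3 : m / 2 = p.1 := by omega
      have h4 := h h2
      rw [h3] at h4
      apply hne
      rw [h4]; simp
    · intro p _
      simp
  rw [ZMod.natCast_eq_zero_iff] at hz
  obtain ⟨p, hp⟩ := hz
  exact ⟨p, hp⟩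

end Pool.Agent.U792.ND
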