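import Pool.Agent.U792.ND.Pot
import Pool.Agent.U792.ND.Step
import Pool.Agent.H394R2.Ones2

/-!
# The number of nonzero digits: the inequality for quadratic irrationals
-/

set_option autoImplicit false
set_option linter.unusedSectionVars false

open Finset

namespace Pool.Agent.U792.ND

open Pool.Agent.H394R2.Ones Pool.Agent.U278.SD

/-- the indicator of the nonzero digits -/
noncomputable def nz (b : ℕ) (y : ℝ) (i : ℕ) : ℕ := if 1 ≤ x b y i then 1 else 0

/-- the indicator as a real number -/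
noncomputable def nzr (b : ℕ) (y : ℝ) (i : ℕ) : ℝ := (nz b y i : ℝ)

/-- the number of nonzero digits up to `n` -/
noncomputable def kk (b : ℕ) (y : ℝ) (n : ℕ) : ℕ := ∑ i ∈ range (n + 1), nz b y i

/-- the number of ordered pairs of places of nonzero digits with sum `m` -/
noncomputable def ρ (b : ℕ) (y : ℝ) (m : ℕ) : ℕ := ∑ p ∈ antidiagonal m, nz b y p.1 * nz b y p.2

section
variable {b : ℕ} {y : ℝ}

lemma Ka_nzr (n : ℕ) : Ka (nzr b y) n = kk b y n := by
  unfold Ka nzr kk; push_cast; rfl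

lemma ra_nzr (m : ℕ) : ra (nzr b y) m = ρ b y m := by
  unfold ra nzr ρ; push_cast; rfl

lemma x_le (hb : 2 ≤ b) (i : ℕ) : x b y i ≤ (b - 1) * nz b y i := by
  have h1 : x b y i < b := Nat.mod_lt _ (by omega)
  unfold nz
  split_ifs with h
  · omega
  · omega

lemma K_le_kk (hb : 2 ≤ b) (n : ℕ) : K b y n ≤ b * kk b y n := by
  unfold K kk
  rw [mul_sum]
  refine sum_le_sum fun i _ => (x_le hb i).trans ?_
  exact Nat.mul_le_mul_right _ (by omega)

lemma kk_succ_le (n : ℕ) : kk b y (n + 1) ≤ kk b y n + 1 := by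
  unfold kk
  rw [sum_range_succ]
  have : nz b y (n + 1) ≤ 1 := by unfold nz; split_ifs <;> omega
  omega

lemma r_le_ρ (hb : 2 ≤ b) (m : ℕ) : r b y m ≤ (b - 1) ^ 2 * ρ b y m := by
  unfold r ρ
  rw [mul_sum]
  refine sum_le_sum fun p _ => ?_
  calc x b y p.1 * x b y p.2 ≤ ((b - 1) * nz b y p.1) * ((b - 1) * nz b y p.2) :=
        Nat.mul_le_mul (x_le hb _) (x_le hb _)
    _ = _ := by ring

lemma ρ_even (m : ℕ) (h : exc b y m = 0) : ∃ p, ρ b y m = 2 * p := by
  refine pair_even (nz b y) m fun hm => ?_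
  unfold exc at h
  rw [if_pos hm] at h
  unfold nz
  rw [if_neg (by omega)]

lemma exc_sum_succ (n : ℕ) : ∑ m ∈ range (n + 1), exc b y m ≤ K b y n := by
  calc ∑ m ∈ range (n + 1), exc b y m ≤ ∑ m ∈ range (2 * (n + 1)), exc b y m :=
        sum_le_sum_of_subset (range_mono (by omega))
    _ = ∑ i ∈ range (n + 1), x b y i := exc_sum_two b y (n + 1)
    _ = K b y n := rfl

/-- exceptional places -/
noncomputable def ex (b : ℕ) (y : ℝ) (Z : ℕ → ℤ) (s m : ℕ) : ℕ :=
  x b y m + exc b y m + (if Z m ≤ 0 then 1 else 0) + (if m ≤ s then 1 else 0)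

/-- the potential -/
noncomputable def Phi (b : ℕ) (Z : ℕ → ℤ) (g s m : ℕ) : ℕ :=
  if s ≤ m then Nat.log b ((Z m).toNat / g) else 0

end

section
variable {b : ℕ} {y : ℝ} (hb : 2 ≤ b) (hy0 : 0 < y) (hy1 : y < 1) (hirr : Irrational y)
  {A : ℕ} {Bc : ℤ} {s : ℕ} (hA : 1 ≤ A) {Z : ℕ → ℤ}
  (hZ : ∀ k, s ≤ k → (Z k : ℝ) = A * T b y k + Bc * ep b y k)

lemma pos_of_mul_pos_left' {g u : ℤ} (h : 0 < g * u) (hg : 0 < g) : 0 < u :=
  (mul_pos_iff_of_pos_left hg).mp h

lemma ep_succ' (hb : 2 ≤ b) (N : ℕ) : ep b y (N + 1) = b * ep b y N - x b y (N + 1) := by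
  unfold ep
  rw [B_succ hb N]
  push_cast
  ring

include hb hy0 hy1 hZ in
lemma Z_succ {k : ℕ} (hk : s ≤ k) :
    Z (k + 1) = b * Z k - A * r b y (k + 1) - Bc * x b y (k + 1) := by
  have h1 := hZ k hk
  have h2 := hZ (k + 1) (by omega)
  rw [T_succ hb hy0 hy1, ep_succ' hb] at h2
  have h3 : (Z (k + 1) : ℝ) = b * Z k - A * r b y (k + 1) - Bc * x b y (k + 1) := by
    rw [h1, h2]; ring
  exact_mod_cast h3

include hb hy0 hy1 hZ in
lemma Z_dvd {k : ℕ} (hk : s < k) (hx : x b y k = 0) (hex : exc b y k = 0) :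
    ((Nat.gcd b (2 * A) : ℕ) : ℤ) ∣ Z k := by
  obtain ⟨k, rfl⟩ : ∃ k', k = k' + 1 := ⟨k - 1, by omega⟩
  rw [Z_succ hb hy0 hy1 hZ (by omega), hx]
  have h1 : ((Nat.gcd b (2 * A) : ℕ) : ℤ) ∣ (b : ℤ) := by exact_mod_cast Nat.gcd_dvd_left _ _
  have h2 : ((Nat.gcd b (2 * A) : ℕ) : ℤ) ∣ 2 * A := by exact_mod_cast Nat.gcd_dvd_right b (2 * A)
  have hr : ∃ r', r b y (k + 1) = 2 * r' := by
    refine pair_even (x b y) (k + 1) fun hm => ?_
    unfold exc at hex
    rwa [if_pos hm] at hex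
  obtain ⟨r', hr'⟩ := hr
  rw [hr']
  have h3 : (b : ℤ) * Z k - A * ((2 * r' : ℕ) : ℤ) - Bc * ((0 : ℕ) : ℤ) =
      b * Z k - 2 * A * r' := by push_cast; ring
  rw [h3]
  exact dvd_sub (Dvd.dvd.mul_right h1 _) (Dvd.dvd.mul_right h2 _)

include hb hy0 hy1 hZ in
/-- the rough inequality -/
lemma rough {m : ℕ} (hm : s ≤ m) :
    Phi b Z (Nat.gcd b (2 * A)) s m ≤ Phi b Z (Nat.gcd b (2 * A)) s (m + 1) +
      ρ b y (m + 1) / 2 + (Bc.natAbs + A + 1) := by
  unfold Phi
  rw [if_pos hm, if_pos (by omega)]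
  refine rough_step hb (Nat.gcd_pos_of_pos_left _ (by omega))
    (Nat.gcd_le_left _ (by omega)) ?_
  have h1 := Z_succ hb hy0 hy1 hZ hm
  have h2 := r_le_ρ (y := y) hb (m + 1)
  have h3 : x b y (m + 1) ≤ b := (Nat.mod_lt _ (by omega)).le
  rcases le_or_gt (Z m) 0 with h0 | h0
  · rw [Int.toNat_of_nonpos h0, mul_zero]
    exact Nat.zero_le _
  · have e1 : ((Z m).toNat : ℤ) = Z m := Int.toNat_of_nonneg h0.le
    have e2 : Z (m + 1) ≤ ((Z (m + 1)).toNat : ℤ) := Int.self_le_toNat _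
    have e3 : (A : ℤ) * r b y (m + 1) ≤ b * (b * (A * ρ b y (m + 1))) := by
      have f1 : A * r b y (m + 1) ≤ b * (b * (A * ρ b y (m + 1))) := by
        calc A * r b y (m + 1) ≤ A * ((b - 1) ^ 2 * ρ b y (m + 1)) := Nat.mul_le_mul_left _ h2
          _ ≤ A * (b ^ 2 * ρ b y (m + 1)) := by
            apply Nat.mul_le_mul_left
            apply Nat.mul_le_mul_right
            exact Nat.pow_le_pow_left (by omega) 2
          _ = _ := by ring
      exact_mod_cast f1
    have e4 : Bc * x b y (m + 1) ≤ b * (Bc.natAbs : ℤ) := by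
      have f1 : Bc ≤ (Bc.natAbs : ℤ) := Int.le_natAbs
      have f2 : Bc * (x b y (m + 1) : ℤ) ≤ (Bc.natAbs : ℤ) * x b y (m + 1) :=
        mul_le_mul_of_nonneg_right f1 (by positivity)
      have f3 : (Bc.natAbs : ℤ) * x b y (m + 1) ≤ (Bc.natAbs : ℤ) * b :=
        mul_le_mul_of_nonneg_left (by exact_mod_cast h3) (by positivity)
      linarith
    zify
    rw [e1] 
    push_cast at e4 ⊢
    linarith

include hb hy0 hy1 hZ in
/-- the inequality at a good place -/
lemma good {m : ℕ} (h1 : ex b y Z s m = 0) (h2 : ex b y Z s (m + 1) = 0) :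
    2 * (1 + Phi b Z (Nat.gcd b (2 * A)) s m) ≤
      Nat.log b (2 * A / Nat.gcd b (2 * A) * (b - 1) ^ 2 + (b - 1)) * ρ b y (m + 1) +
        2 * Phi b Z (Nat.gcd b (2 * A)) s (m + 1) := by
  set g := Nat.gcd b (2 * A) with hg
  have hg0 : 0 < g := Nat.gcd_pos_of_pos_left _ (by omega)
  unfold ex at h1 h2
  have hZm : 0 < Z m := by
    by_contra hcon
    rw [if_pos (by omega : Z m ≤ 0)] at h1
    omega
  have hZm' : 0 < Z (m + 1) := by
    by_contra hcon
    rw [if_pos (by omega : Z (m + 1) ≤ 0)] at h2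
    omega
  have hsm : s < m := by
    by_contra hcon
    rw [if_pos (by omega : m ≤ s)] at h1
    omega
  have hx2 : x b y (m + 1) = 0 := by omega
  obtain ⟨u, hu⟩ := Z_dvd hb hy0 hy1 hZ hsm (by omega) (by omega)
  obtain ⟨v, hv⟩ := Z_dvd hb hy0 hy1 hZ (by omega : s < m + 1) (by omega) (by omega)
  rw [← hg] at hu hv
  have hgZ : (0 : ℤ) < g := by exact_mod_cast hg0
  have hu0 : 0 < u := by
    rw [hu] at hZm
    exact pos_of_mul_pos_left' hZm hgZ
  have hv0 : 0 < v := by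
    rw [hv] at hZm'
    exact pos_of_mul_pos_left' hZm' hgZ
  obtain ⟨u, rfl⟩ := Int.eq_ofNat_of_zero_le hu0.le
  obtain ⟨v, rfl⟩ := Int.eq_ofNat_of_zero_le hv0.le
  have hPu : Phi b Z g s m = Nat.log b u := by
    unfold Phi
    rw [if_pos hsm.le, hu]
    congr 1
    rw [show ((g : ℤ) * (u : ℤ)) = ((g * u : ℕ) : ℤ) by push_cast; ring, Int.toNat_natCast,
      Nat.mul_div_cancel_left _ hg0]
  have hPv : Phi b Z g s (m + 1) = Nat.log b v := by
    unfold Phi
    rw [if_pos (by omega), hv]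
    congr 1
    rw [show ((g : ℤ) * (v : ℤ)) = ((g * v : ℕ) : ℤ) by push_cast; ring, Int.toNat_natCast,
      Nat.mul_div_cancel_left _ hg0]
  obtain ⟨p, hp⟩ := ρ_even (b := b) (y := y) (m + 1) (by omega)
  have h3 := Z_succ hb hy0 hy1 hZ hsm.le
  rw [hx2, hu, hv] at h3
  have h4 := r_le_ρ (y := y) hb (m + 1)
  rw [hp] at h4
  obtain ⟨q, hq⟩ : g ∣ 2 * A := Nat.gcd_dvd_right _ _
  have hq' : 2 * A / g = q := by rw [hq, Nat.mul_div_cancel_left _ hg0]
  have h5 : g * (b * u) ≤ g * (v + q * (b - 1) ^ 2 * p) := by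
    have e1 : g * (b * u) = g * v + A * r b y (m + 1) := by
      push_cast at h3
      zify
      linarith
    have e2 : A * r b y (m + 1) ≤ A * ((b - 1) ^ 2 * (2 * p)) := Nat.mul_le_mul_left _ h4
    have e3 : A * ((b - 1) ^ 2 * (2 * p)) = g * (q * (b - 1) ^ 2 * p) := by
      calc A * ((b - 1) ^ 2 * (2 * p)) = (2 * A) * ((b - 1) ^ 2 * p) := by ring
        _ = _ := by rw [hq]; ring
    rw [mul_add]
    omega
  have h6 := Nat.le_of_mul_le_mul_left h5 hg0
  have h7 : q * (b - 1) ^ 2 + b ≤ b ^ (Nat.log b (q * (b - 1) ^ 2 + (b - 1)) + 1) := by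
    have := Nat.lt_pow_succ_log_self (b := b) (by omega) (q * (b - 1) ^ 2 + (b - 1))
    rw [Nat.succ_eq_add_one] at this
    omega
  have h8 := good_step hb (by exact_mod_cast hu0) h7 h6
  rw [hPu, hPv, hp, hq']
  nlinarith

/-- the constant `J` -/
lemma J_pos (hb : 2 ≤ b) (hA : 1 ≤ A) :
    1 ≤ Nat.log b (2 * A / Nat.gcd b (2 * A) * (b - 1) ^ 2 + (b - 1)) := by
  have hg0 : 0 < Nat.gcd b (2 * A) := Nat.gcd_pos_of_pos_left _ (by omega)
  have h1 : 1 ≤ 2 * A / Nat.gcd b (2 * A) :=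
    (Nat.one_le_div_iff hg0).mpr (Nat.gcd_le_right _ (by omega))
  have h2 : 1 ≤ (b - 1) ^ 2 := Nat.one_le_pow _ _ (by omega)
  have h3 : b ^ 1 ≤ 2 * A / Nat.gcd b (2 * A) * (b - 1) ^ 2 + (b - 1) := by
    rw [pow_one]
    have : 1 ≤ 2 * A / Nat.gcd b (2 * A) * (b - 1) ^ 2 := Nat.one_le_iff_ne_zero.mpr (by positivity)
    omega
  exact Nat.le_log_of_pow_le (by omega) h3

include hb hy0 hy1 hirr hA hZ in
/-- **The inequality for the number of nonzero digits.** -/
theorem nd_main {n : ℕ} {W : ℝ}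
    (hW : ∑ m ∈ range (n + 1), (if Z m ≤ 0 then (1 : ℝ) else 0) ≤ W) :
    11 / (5 * (Nat.log b (2 * A / Nat.gcd b (2 * A) * (b - 1) ^ 2 + (b - 1)) : ℕ)) * n ≤
      (kk b y n : ℝ) ^ 2 +
        (8 * (2 * (Bc.natAbs + A + 2)) * (2 * b + s + 1) + 260 * (A * b + A + Bc.natAbs) + 220) *
          (kk b y n + 1) + 8 * (2 * (Bc.natAbs + A + 2)) * W := by
  set J := Nat.log b (2 * A / Nat.gcd b (2 * A) * (b - 1) ^ 2 + (b - 1)) with hJ
  have hJ1 : 1 ≤ J := J_pos hb hA
  have hJR : (1 : ℝ) ≤ J := by exact_mod_cast hJ1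
  set g := Nat.gcd b (2 * A) with hg
  set c : ℝ := 2 / J with hc
  have hc0 : 0 ≤ c := by positivity
  have hc2 : c ≤ 2 := by
    rw [hc, div_le_iff₀ (by linarith)]
    linarith
  have hcJ : c * J = 2 := by rw [hc]; field_simp
  set Ce : ℝ := 2 * (Bc.natAbs + A + 2) with hCe
  have hCe0 : 0 ≤ Ce := by positivity
  have hCe4 : 4 ≤ Ce := by
    rw [hCe]
    have h1 : (0 : ℝ) ≤ Bc.natAbs := Nat.cast_nonneg _
    have h2 : (0 : ℝ) ≤ A := Nat.cast_nonneg _
    linarith
  have hkk : (0 : ℝ) ≤ kk b y n := Nat.cast_nonneg _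
  -- the potential
  have hPhi : ∀ m ≤ n, (Phi b Z g s m : ℝ) ≤ A * (b * kk b y n + 1) + Bc.natAbs := by
    intro m hm
    unfold Phi
    split_ifs with hs
    · have h1 : Nat.log b ((Z m).toNat / g) ≤ (Z m).toNat :=
        (Nat.log_le_self _ _).trans (Nat.div_le_self _ _)
      have h2 : ((Nat.log b ((Z m).toNat / g) : ℕ) : ℝ) ≤ (Z m).toNat := by exact_mod_cast h1
      have h3 : (((Z m).toNat : ℕ) : ℝ) ≤ A * (K b y m + 1) + Bc.natAbs := by
        rcases le_or_gt (Z m) 0 with h0 | h0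
        · rw [Int.toNat_of_nonpos h0]
          push_cast
          positivity
        · have e1 : (((Z m).toNat : ℕ) : ℝ) = (Z m : ℝ) := by
            exact_mod_cast congrArg (fun z : ℤ => (z : ℝ)) (Int.toNat_of_nonneg h0.le)
          rw [e1, hZ m hs]
          have e2 := T_le hb hy0 hy1 (b := b) m
          have e3 := ep_nonneg (b := b) hy0 m
          have e4 := ep_lt (b := b) (y := y) m
          have e5 : (Bc : ℝ) ≤ Bc.natAbs := by
            have f1 : (Bc : ℝ) ≤ (((Bc.natAbs : ℕ) : ℤ) : ℝ) :=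
              Int.cast_le.mpr (Int.le_natAbs (a := Bc))
            rwa [Int.cast_natCast] at f1
          have e6 : (0 : ℝ) ≤ Bc.natAbs := Nat.cast_nonneg _
          have e7 : (Bc : ℝ) * ep b y m ≤ Bc.natAbs := by nlinarith
          have e8 : (A : ℝ) * T b y m ≤ A * (K b y m + 1) :=
            mul_le_mul_of_nonneg_left e2 (Nat.cast_nonneg _)
          linarith
      have h4 : (K b y m : ℝ) ≤ b * kk b y n := by
        exact_mod_cast (K_mono hm).trans (K_le_kk hb n)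
      have h5 : (A : ℝ) * (K b y m + 1) ≤ A * (b * kk b y n + 1) :=
        mul_le_mul_of_nonneg_left (by linarith) (Nat.cast_nonneg _)
      linarith
    · push_cast
      positivity
  -- the errors
  have hD : ∑ m ∈ range n, Ce * ((ex b y Z s m : ℝ) + ex b y Z s (m + 1)) ≤
      2 * Ce * (2 * (b * kk b y n) + W + (s + 1)) := by
    rw [← mul_sum, sum_add_distrib]
    have h1 : ∑ m ∈ range (n + 1), (ex b y Z s m : ℝ) ≤ 2 * (b * kk b y n) + W + (s + 1) := by
      unfold ex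
      push_cast
      rw [sum_add_distrib, sum_add_distrib, sum_add_distrib]
      have a1 : ∑ m ∈ range (n + 1), (x b y m : ℝ) ≤ b * kk b y n := by
        have : ∑ m ∈ range (n + 1), x b y m ≤ b * kk b y n := K_le_kk hb n
        exact_mod_cast this
      have a2 : ∑ m ∈ range (n + 1), (exc b y m : ℝ) ≤ b * kk b y n := by
        exact_mod_cast (exc_sum_succ n).trans (K_le_kk hb n)
      have a3 := few_sum s (n + 1) 1 (by norm_num)
      rw [one_mul] at a3
      linarith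
    have h2 : ∑ m ∈ range n, (ex b y Z s m : ℝ) ≤ ∑ m ∈ range (n + 1), (ex b y Z s m : ℝ) :=
      sum_le_sum_of_subset_of_nonneg (range_mono (by omega)) fun i _ _ => Nat.cast_nonneg _
    have h3 : ∑ m ∈ range n, (ex b y Z s (m + 1) : ℝ) ≤
        ∑ m ∈ range (n + 1), (ex b y Z s m : ℝ) := by
      rw [sum_range_succ']
      have : (0 : ℝ) ≤ (ex b y Z s 0 : ℝ) := Nat.cast_nonneg _
      linarith
    have h4 := mul_le_mul_of_nonneg_left (add_le_add (h2.trans h1) (h3.trans h1)) hCe0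
    linarith
  have hmain := main_pot (a := nzr b y) (c := c) (Φ := fun m => (Phi b Z g s m : ℝ))
    (e := fun m => Ce * ((ex b y Z s m : ℝ) + ex b y Z s (m + 1)))
    (M := A * (b * kk b y n + 1) + Bc.natAbs)
    (D := 2 * Ce * (2 * (b * kk b y n) + W + (s + 1))) (n := n)
    (fun i => by unfold nzr; positivity) hc0 (fun m => Nat.cast_nonneg _)
    (fun m => mul_nonneg hCe0 (by positivity)) ?_ hPhi hD
  · rw [Ka_nzr] at hmain
    have e1 : 11 / (5 * (J : ℝ)) = 11 / 10 * c := by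
      rw [hc]; field_simp; norm_num
    rw [e1]
    have hcM : 130 * (c * (A * (b * kk b y n + 1) + Bc.natAbs)) ≤
        260 * (A * b + A + Bc.natAbs) * ((kk b y n : ℝ) + 1) := by
      have f1 : (0 : ℝ) ≤ A * (b * kk b y n + 1) + Bc.natAbs := by positivity
      have f2 : c * (A * (b * kk b y n + 1) + Bc.natAbs) ≤
          2 * (A * (b * kk b y n + 1) + Bc.natAbs) := mul_le_mul_of_nonneg_right hc2 f1
      have f3 : (A : ℝ) * (b * kk b y n + 1) + Bc.natAbs ≤
          (A * b + A + Bc.natAbs) * ((kk b y n : ℝ) + 1) := by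
        have g1 : (0 : ℝ) ≤ A * b := by positivity
        have g2 : (0 : ℝ) ≤ A * kk b y n := by positivity
        have g3 : (0 : ℝ) ≤ Bc.natAbs * (kk b y n : ℝ) := by positivity
        nlinarith
      linarith
    have hD4 : 4 * (2 * Ce * (2 * (b * kk b y n) + W + (s + 1))) ≤
        8 * Ce * (2 * b + s + 1) * ((kk b y n : ℝ) + 1) + 8 * Ce * W := by
      have g1 : (0 : ℝ) ≤ Ce * (s * kk b y n + kk b y n + 2 * b) := by positivity
      nlinarith
    have hc110 : 110 * c ≤ 220 * ((kk b y n : ℝ) + 1) := by nlinarith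
    linarith
  · intro m
    rw [ra_nzr]
    have hρ0 : (0 : ℝ) ≤ ρ b y (m + 1) := Nat.cast_nonneg _
    have hP0 : (0 : ℝ) ≤ Phi b Z g s (m + 1) := Nat.cast_nonneg _
    rcases Nat.lt_or_ge m s with hms | hms
    · -- before the start
      have h1 : Phi b Z g s m = 0 := by unfold Phi; rw [if_neg (by omega)]
      have h2 : 1 ≤ ex b y Z s m := by
        unfold ex
        rw [if_pos (by omega : m ≤ s)]
        omega
      have h3 : (1 : ℝ) ≤ ex b y Z s m := by exact_mod_cast h2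
      have h4 : (0 : ℝ) ≤ ex b y Z s (m + 1) := Nat.cast_nonneg _
      simp only [h1]
      push_cast
      have h5 : 0 ≤ c * Phi b Z g s (m + 1) := mul_nonneg hc0 hP0
      nlinarith
    · rcases Nat.eq_zero_or_pos (ex b y Z s m + ex b y Z s (m + 1)) with h0 | h0
      · have h1 : ex b y Z s m = 0 := by omega
        have h2 : ex b y Z s (m + 1) = 0 := by omega
        have h3 := good hb hy0 hy1 hZ h1 h2
        rw [← hg, ← hJ] at h3
        have h4 : 2 * (1 + (Phi b Z g s m : ℝ)) ≤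
            J * ρ b y (m + 1) + 2 * Phi b Z g s (m + 1) := by exact_mod_cast h3
        rw [h1, h2]
        push_cast
        have h5 : c * (2 * (1 + (Phi b Z g s m : ℝ))) ≤
            c * (J * ρ b y (m + 1) + 2 * Phi b Z g s (m + 1)) := mul_le_mul_of_nonneg_left h4 hc0
        have h6 : c * (J * ρ b y (m + 1)) = 2 * ρ b y (m + 1) := by
          rw [← mul_assoc, hcJ]
        linarith
      · have h1 := rough hb hy0 hy1 hZ hms
        rw [← hg] at h1
        have h2 : (Phi b Z g s m : ℝ) ≤ Phi b Z g s (m + 1) + ρ b y (m + 1) / 2 +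
            (Bc.natAbs + A + 1) := by
          have e1 : ((ρ b y (m + 1) / 2 : ℕ) : ℝ) ≤ (ρ b y (m + 1) : ℝ) / 2 := Nat.cast_div_le
          have e2 : (Phi b Z g s m : ℝ) ≤ Phi b Z g s (m + 1) + ((ρ b y (m + 1) / 2 : ℕ) : ℝ) +
            (Bc.natAbs + A + 1) := by exact_mod_cast h1
          linarith
        have h3 : (1 : ℝ) ≤ (ex b y Z s m : ℝ) + ex b y Z s (m + 1) := by exact_mod_cast h0
        have h4 : Ce ≤ Ce * ((ex b y Z s m : ℝ) + ex b y Z s (m + 1)) := by nlinarith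
        have h5 : c * (1 + Phi b Z g s m - Phi b Z g s (m + 1)) ≤
            c * (ρ b y (m + 1) / 2 + (Bc.natAbs + A + 2)) :=
          mul_le_mul_of_nonneg_left (by linarith) hc0
        have h6 : c * (ρ b y (m + 1) / 2 + (Bc.natAbs + A + 2)) ≤
            2 * (ρ b y (m + 1) / 2 + (Bc.natAbs + A + 2)) :=
          mul_le_mul_of_nonneg_right hc2 (by positivity)
        have h7 : 2 * ((ρ b y (m + 1) : ℝ) / 2 + (Bc.natAbs + A + 2)) = ρ b y (m + 1) + Ce := by
          rw [hCe]; ring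
        linarith

end

end Pool.Agent.U792.ND
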