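import Pool.Agent.U278.SD.Core

/-!
# The kernel inequality with a potential

If `c (1 + Φ m - Φ (m + 1)) - e m ≤ ∑_{i + j = m + 1} a i a j` with a potential `0 ≤ Φ ≤ M` and errors
`e` of total mass `D`, then `11 / 10 c n ≤ (∑_{i ≤ n} a i)^2 + O (D + M + 1)`.
-/

set_option autoImplicit false
set_option linter.unusedSectionVars false

open Finset

namespace Pool.Agent.U792.ND

open Pool.Agent.U278.SD

lemma tele_pow (Φ : ℕ → ℂ) (w : ℂ) (n : ℕ) :
    ∑ m ∈ range n, (Φ m - Φ (m + 1)) * w ^ (m + 1) =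
      (w - 1) * ∑ m ∈ range n, Φ m * w ^ m + Φ 0 - Φ n * w ^ n := by
  induction n with
  | zero => simp
  | succ n ih => rw [sum_range_succ, ih, sum_range_succ _ n]; ring

lemma tele_w (Φ ω : ℕ → ℝ) (n : ℕ) :
    ∑ m ∈ range n, (Φ m - Φ (m + 1)) * ω (m + 1) =
      ∑ m ∈ range n, Φ m * (ω (m + 1) - ω m) + Φ 0 * ω 0 - Φ n * ω n := by
  induction n with
  | zero => simp
  | succ n ih => rw [sum_range_succ, ih, sum_range_succ _ n]; ring

section
variable {a : ℕ → ℝ} (ha : ∀ i, 0 ≤ a i) {c : ℝ} (hc : 0 ≤ c) {Φ e : ℕ → ℝ} {M D : ℝ}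
  (hΦ0 : ∀ m, 0 ≤ Φ m) (he : ∀ m, 0 ≤ e m)
  (hρ : ∀ m, c * (1 + Φ m - Φ (m + 1)) - e m ≤ ra a (m + 1))

include ha hc hΦ0 he hρ in
lemma H1_pot {n : ℕ} (hΦ : ∀ m ≤ n, Φ m ≤ M) (hD : ∑ m ∈ range n, e m ≤ D) {w : ℂ}
    (hw1 : ‖w‖ = 1) (hwn : w ^ n = 1) (hw : w ≠ 1) (hwd : ‖w - 1‖ * n ≤ 26) :
    ‖Fa a n w‖ ^ 2 ≤ Ka a n ^ 2 - c * n + (2 * D + 29 * (c * M)) := by
  have hM0 : 0 ≤ M := (hΦ0 0).trans (hΦ 0 (Nat.zero_le _))
  have hwp : ∀ m, ‖w ^ m‖ = 1 := fun m => by rw [norm_pow, hw1, one_pow]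
  have hgeom : ∑ m ∈ range n, w ^ m = 0 := by
    have h := mul_neg_geom_sum w n
    rw [hwn, sub_self] at h
    rcases mul_eq_zero.mp h with h | h
    · exact absurd (by linear_combination -h) hw
    · exact h
  have h1 := Fa_sq ha n hw1
  have h2 := Ka_sq a n
  have hr0 : 0 ≤ ra a 0 := sum_nonneg fun p _ => mul_nonneg (ha _) (ha _)
  -- the errors
  set ν : ℕ → ℝ := fun m => ra a (m + 1) - c * (1 + Φ m - Φ (m + 1)) with hν
  have hν1 : ∀ m, -e m ≤ ν m := fun m => by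
    have := hρ m
    simp only [hν]
    linarith
  have hsplit : ∑ m ∈ range (n + 1), (ra a m : ℂ) * w ^ m =
      (ra a 0 : ℂ) + (c : ℂ) * ((w - 1) * ∑ m ∈ range n, (Φ m : ℂ) * w ^ m + Φ 0 - Φ n * w ^ n) +
        ∑ m ∈ range n, (ν m : ℂ) * w ^ (m + 1) := by
    rw [sum_range_succ', ← tele_pow (fun m => (Φ m : ℂ)), pow_zero, mul_one]
    have h3 : ∑ m ∈ range n, (ra a (m + 1) : ℂ) * w ^ (m + 1) =
        c * w * ∑ m ∈ range n, w ^ m +
          c * ∑ m ∈ range n, ((Φ m : ℂ) - Φ (m + 1)) * w ^ (m + 1) +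
          ∑ m ∈ range n, (ν m : ℂ) * w ^ (m + 1) := by
      rw [mul_sum, mul_sum, ← sum_add_distrib, ← sum_add_distrib]
      refine sum_congr rfl fun m _ => ?_
      simp only [hν]
      push_cast
      ring
    rw [h3, hgeom]
    ring
  have hnorm : ‖∑ m ∈ range (n + 1), (ra a m : ℂ) * w ^ m‖ ≤
      ra a 0 + c * (‖w - 1‖ * (M * n) + M + M) + ∑ m ∈ range n, |ν m| := by
    rw [hsplit]
    have e1 : ‖(ra a 0 : ℂ)‖ = ra a 0 := by
      rw [Complex.norm_real, Real.norm_eq_abs, abs_of_nonneg hr0]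
    have e2 : ‖(c : ℂ) * ((w - 1) * ∑ m ∈ range n, (Φ m : ℂ) * w ^ m + Φ 0 - Φ n * w ^ n)‖ ≤
        c * (‖w - 1‖ * (M * n) + M + M) := by
      rw [norm_mul, Complex.norm_real, Real.norm_eq_abs, abs_of_nonneg hc]
      apply mul_le_mul_of_nonneg_left _ hc
      have f1 : ‖∑ m ∈ range n, (Φ m : ℂ) * w ^ m‖ ≤ M * n := by
        refine (norm_sum_le _ _).trans ?_
        have : ∑ m ∈ range n, ‖(Φ m : ℂ) * w ^ m‖ ≤ ∑ m ∈ range n, M := by
          refine sum_le_sum fun m hm => ?_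
          rw [norm_mul, hwp, mul_one, Complex.norm_real, Real.norm_eq_abs, abs_of_nonneg (hΦ0 m)]
          exact hΦ m (mem_range.mp hm).le
        refine this.trans (le_of_eq ?_)
        rw [sum_const, card_range, nsmul_eq_mul, mul_comm]
      have f2 : ‖((Φ 0 : ℝ) : ℂ)‖ ≤ M := by
        rw [Complex.norm_real, Real.norm_eq_abs, abs_of_nonneg (hΦ0 0)]
        exact hΦ 0 (Nat.zero_le _)
      have f3 : ‖(Φ n : ℂ) * w ^ n‖ ≤ M := by
        rw [norm_mul, hwp, mul_one, Complex.norm_real, Real.norm_eq_abs, abs_of_nonneg (hΦ0 n)]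
        exact hΦ n le_rfl
      calc ‖(w - 1) * ∑ m ∈ range n, (Φ m : ℂ) * w ^ m + Φ 0 - Φ n * w ^ n‖
          ≤ ‖(w - 1) * ∑ m ∈ range n, (Φ m : ℂ) * w ^ m + Φ 0‖ + ‖(Φ n : ℂ) * w ^ n‖ :=
            norm_sub_le _ _
        _ ≤ ‖(w - 1) * ∑ m ∈ range n, (Φ m : ℂ) * w ^ m‖ + ‖((Φ 0 : ℝ) : ℂ)‖ +
            ‖(Φ n : ℂ) * w ^ n‖ := by gcongr; exact norm_add_le _ _
        _ ≤ _ := by
          rw [norm_mul]
          gcongr
    have e3 : ‖∑ m ∈ range n, (ν m : ℂ) * w ^ (m + 1)‖ ≤ ∑ m ∈ range n, |ν m| := by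
      refine (norm_sum_le _ _).trans (sum_le_sum fun m _ => ?_)
      rw [norm_mul, hwp, mul_one, Complex.norm_real, Real.norm_eq_abs]
    refine (norm_add_le _ _).trans ?_
    refine add_le_add ((norm_add_le _ _).trans ?_) e3
    rw [e1]
    exact add_le_add le_rfl e2
  have hνsum : ∑ m ∈ range n, |ν m| ≤ Ra a n - ra a 0 - c * n + c * M + 2 * D := by
    have f1 : ∑ m ∈ range n, |ν m| ≤ ∑ m ∈ range n, (ν m + 2 * e m) := by
      refine sum_le_sum fun m _ => ?_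
      have := hν1 m
      have := he m
      rw [abs_le]
      constructor <;> linarith
    have f2 : ∑ m ∈ range n, (ν m + 2 * e m) =
        ∑ m ∈ range n, ra a (m + 1) - c * n - c * (Φ 0 - Φ n) + 2 * ∑ m ∈ range n, e m := by
      have f3 : ∑ m ∈ range n, (Φ m - Φ (m + 1)) = Φ 0 - Φ n := sum_range_sub' Φ n
      rw [← f3, sum_add_distrib, ← mul_sum]
      simp only [hν]
      rw [sum_sub_distrib, ← mul_sum]
      have f4 : ∑ m ∈ range n, (1 + Φ m - Φ (m + 1)) = n + ∑ m ∈ range n, (Φ m - Φ (m + 1)) := by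
        have : ∀ m ∈ range n, 1 + Φ m - Φ (m + 1) = 1 + (Φ m - Φ (m + 1)) := fun m _ => by ring
        rw [sum_congr rfl this, sum_add_distrib, sum_const, card_range, nsmul_eq_mul, mul_one]
      rw [f4]
      ring
    have f5 : ∑ m ∈ range n, ra a (m + 1) = Ra a n - ra a 0 := by
      unfold Ra
      rw [sum_range_succ']
      ring
    have f6 : c * (Φ n - Φ 0) ≤ c * M := by
      apply mul_le_mul_of_nonneg_left _ hc
      have := hΦ0 0
      have := hΦ n le_rfl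
      linarith
    rw [f2, f5] at f1
    linarith
  have h5 : c * (‖w - 1‖ * (M * n) + M + M) ≤ 28 * (c * M) := by
    have : ‖w - 1‖ * (M * n) ≤ 26 * M := by
      calc ‖w - 1‖ * (M * n) = M * (‖w - 1‖ * n) := by ring
        _ ≤ M * 26 := mul_le_mul_of_nonneg_left hwd hM0
        _ = _ := by ring
    calc c * (‖w - 1‖ * (M * n) + M + M) ≤ c * (28 * M) :=
          mul_le_mul_of_nonneg_left (by linarith) hc
      _ = _ := by ring
  linarith

include ha hc hΦ0 he hρ in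
lemma H2_pot {L : ℕ} (hL : 0 < L) (hΦ : ∀ m ≤ 64 * L, Φ m ≤ M)
    (hD : ∑ m ∈ range (64 * L), e m ≤ D) :
    c * ∑ z ∈ range (64 * L), ip L uu (z + 1) - (D + 65 * (c * M)) ≤
      ∑ m ∈ range (64 * L + 1), ra a m * ip L uu m := by
  have hLR : (0 : ℝ) < L := by exact_mod_cast hL
  have hM0 : 0 ≤ M := (hΦ0 0).trans (hΦ 0 (Nat.zero_le _))
  have hr0 : 0 ≤ ra a 0 := sum_nonneg fun p _ => mul_nonneg (ha _) (ha _)
  rw [sum_range_succ']
  have h1 : ∑ m ∈ range (64 * L), (c * (1 + Φ m - Φ (m + 1)) - e m) * ip L uu (m + 1) ≤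
      ∑ m ∈ range (64 * L), ra a (m + 1) * ip L uu (m + 1) :=
    sum_le_sum fun m _ => mul_le_mul_of_nonneg_right (hρ m) (ip_nonneg hL _)
  have h2 : ∑ m ∈ range (64 * L), (c * (1 + Φ m - Φ (m + 1)) - e m) * ip L uu (m + 1) =
      c * ∑ z ∈ range (64 * L), ip L uu (z + 1) +
        c * ∑ m ∈ range (64 * L), (Φ m - Φ (m + 1)) * ip L uu (m + 1) -
        ∑ m ∈ range (64 * L), e m * ip L uu (m + 1) := by
    rw [mul_sum, mul_sum, ← sum_add_distrib, ← sum_sub_distrib]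
    refine sum_congr rfl fun m _ => by ring
  rw [tele_w Φ (ip L uu)] at h2
  have h3 : ∑ m ∈ range (64 * L), e m * ip L uu (m + 1) ≤ D := by
    refine le_trans (sum_le_sum fun m hm => ?_) hD
    have a1 := he m
    have a2 := ip_le_one hL (x := m + 1) (by have := mem_range.mp hm; omega)
    nlinarith
  have h4 : -(64 * M) ≤ ∑ m ∈ range (64 * L), Φ m * (ip L uu (m + 1) - ip L uu m) := by
    have g1 : ∑ m ∈ range (64 * L), -(M * (1 / (L : ℝ))) ≤
        ∑ m ∈ range (64 * L), Φ m * (ip L uu (m + 1) - ip L uu m) := by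
      refine sum_le_sum fun m hm => ?_
      have hm' := mem_range.mp hm
      have a1 := ip_lip hL hm'
      rw [abs_le] at a1
      have a2 := hΦ0 m
      have a3 := hΦ m hm'.le
      have a4 : 0 < 1 / (L : ℝ) := by positivity
      have a5 : Φ m * (-(1 / (L : ℝ))) ≤ Φ m * (ip L uu (m + 1) - ip L uu m) :=
        mul_le_mul_of_nonneg_left a1.1 a2
      have a6 : Φ m * (1 / (L : ℝ)) ≤ M * (1 / (L : ℝ)) := mul_le_mul_of_nonneg_right a3 a4.le
      linarith
    refine le_trans (le_of_eq ?_) g1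
    rw [sum_const, card_range, nsmul_eq_mul]
    push_cast
    field_simp
  have h5 : Φ (64 * L) * ip L uu (64 * L) ≤ M := by
    have a1 := hΦ0 (64 * L)
    have a2 := hΦ (64 * L) le_rfl
    have a3 := ip_le_one hL (x := 64 * L) le_rfl
    have a4 := ip_nonneg hL (64 * L)
    nlinarith
  have h6 : 0 ≤ Φ 0 * ip L uu 0 := mul_nonneg (hΦ0 0) (ip_nonneg hL 0)
  have h7 : 0 ≤ ra a 0 * ip L uu 0 := mul_nonneg hr0 (ip_nonneg hL 0)
  have h8 : c * (-(65 * M)) ≤ c * (∑ m ∈ range (64 * L), Φ m * (ip L uu (m + 1) - ip L uu m) +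
      Φ 0 * ip L uu 0 - Φ (64 * L) * ip L uu (64 * L)) :=
    mul_le_mul_of_nonneg_left (by linarith) hc
  linarith

include ha hc hΦ0 he hρ in
/-- the inequality for multiples of `64` -/
theorem main64_pot {L : ℕ} (hL : 0 < L) (hΦ : ∀ m ≤ 64 * L, Φ m ≤ M)
    (hD : ∑ m ∈ range (64 * L), e m ≤ D) :
    11 / 10 * c * (64 * L) ≤ Ka a (64 * L) ^ 2 + 2 * (2 * D + 65 * (c * M)) + 37 * c := by
  have hLR : (1 : ℝ) ≤ L := by exact_mod_cast hL
  have hM0 : 0 ≤ M := (hΦ0 0).trans (hΦ 0 (Nat.zero_le _))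
  have hD0 : 0 ≤ D := (sum_nonneg fun m _ => he m).trans hD
  have hcM : 0 ≤ c * M := mul_nonneg hc hM0
  have hpi := Real.pi_pos
  have hpi2 := Real.pi_lt_d2
  refine core hL ha hc (by positivity) ?_ ?_
  · intro k hk
    have hk' : (k : ℝ) ≤ 3 := by exact_mod_cast (by omega : k ≤ 3)
    have hθ0 : 0 < fq L k := by unfold fq; positivity
    have hθ1 : fq L k < 2 * Real.pi := by
      unfold fq
      rw [div_lt_iff₀ (by linarith)]
      nlinarith
    have hθn : fq L k * ((64 * L : ℕ) : ℝ) = (k + 1) * (2 * Real.pi) := by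
      unfold fq
      push_cast
      field_simp
      ring
    have hθ26 : fq L k * ((64 * L : ℕ) : ℝ) ≤ 26 := by
      rw [hθn]; nlinarith
    set θ := fq L k with hθ
    set w : ℂ := Complex.exp (Complex.I * (θ : ℂ)) with hw
    have hw1 : ‖w‖ = 1 := by
      rw [hw, mul_comm]
      exact Complex.norm_exp_ofReal_mul_I θ
    have hwn : w ^ (64 * L) = 1 := by
      rw [hw, ← Complex.exp_nat_mul, Complex.exp_eq_one_iff]
      refine ⟨k + 1, ?_⟩
      have : ((θ * ((64 * L : ℕ) : ℝ) : ℝ) : ℂ) = (((k + 1) * (2 * Real.pi) : ℝ) : ℂ) := by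
        rw [hθn]
      push_cast at this ⊢
      linear_combination Complex.I * this
    have hne : w ≠ 1 := by
      intro h
      rw [hw, Complex.exp_eq_one_iff] at h
      obtain ⟨m, hm⟩ := h
      have h3 : θ = m * (2 * Real.pi) := by
        have h4 : Complex.I * (θ : ℂ) = Complex.I * ((m * (2 * Real.pi) : ℝ) : ℂ) := by
          rw [hm]; push_cast; ring
        have h5 := mul_left_cancel₀ Complex.I_ne_zero h4
        exact_mod_cast h5
      have h6 : (0 : ℝ) < m := by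
        by_contra hcon
        have : (m : ℝ) * (2 * Real.pi) ≤ 0 := by nlinarith
        linarith
      have h7 : (m : ℝ) < 1 := by
        by_contra hcon
        have : 1 * (2 * Real.pi) ≤ (m : ℝ) * (2 * Real.pi) := by nlinarith
        linarith
      have h8 : (0 : ℤ) < m := by exact_mod_cast h6
      have h9 : m < (1 : ℤ) := by exact_mod_cast h7
      omega
    have hdd : ‖w - 1‖ * ((64 * L : ℕ) : ℝ) ≤ 26 := by
      have h3 : ‖w - 1‖ ≤ θ := by
        have := Real.norm_exp_I_mul_ofReal_sub_one_le (x := θ)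
        rw [Real.norm_eq_abs, abs_of_pos hθ0] at this
        exact this
      have h4 : (0 : ℝ) ≤ ((64 * L : ℕ) : ℝ) := Nat.cast_nonneg _
      nlinarith
    have h := H1_pot ha hc hΦ0 he hρ hΦ hD hw1 hwn hne hdd
    push_cast at h
    linarith
  · have h := H2_pot ha hc hΦ0 he hρ hL hΦ hD
    linarith

lemma Ka_mono (ha : ∀ i, 0 ≤ a i) {m n : ℕ} (h : m ≤ n) : Ka a m ≤ Ka a n := by
  unfold Ka
  exact sum_le_sum_of_subset_of_nonneg (range_mono (by omega)) fun i _ _ => ha i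

include ha hc hΦ0 he hρ in
/-- **The inequality with a potential.** -/
theorem main_pot {n : ℕ} (hΦ : ∀ m ≤ n, Φ m ≤ M) (hD : ∑ m ∈ range n, e m ≤ D) :
    11 / 10 * c * n ≤ Ka a n ^ 2 + 2 * (2 * D + 65 * (c * M)) + 110 * c := by
  have hM0 : 0 ≤ M := (hΦ0 0).trans (hΦ 0 (Nat.zero_le _))
  have hD0 : 0 ≤ D := (sum_nonneg fun m _ => he m).trans hD
  have hcM : 0 ≤ c * M := mul_nonneg hc hM0
  have hn := Nat.div_add_mod n 64
  have hm := Nat.mod_lt n (by norm_num : 0 < 64)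
  have hnR : (n : ℝ) ≤ 64 * ((n / 64 : ℕ) : ℝ) + 63 := by
    exact_mod_cast (by omega : n ≤ 64 * (n / 64) + 63)
  rcases Nat.eq_zero_or_pos (n / 64) with h0 | h0
  · rw [h0] at hnR
    have h1 : c * n ≤ c * 63 := by
      apply mul_le_mul_of_nonneg_left _ hc
      simpa using hnR
    have h2 : 0 ≤ Ka a n ^ 2 := sq_nonneg _
    linarith
  · have hle : 64 * (n / 64) ≤ n := by omega
    have hD' : ∑ m ∈ range (64 * (n / 64)), e m ≤ D :=
      (sum_le_sum_of_subset_of_nonneg (range_mono hle) fun i _ _ => he i).trans hD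
    have h1 := main64_pot ha hc hΦ0 he hρ h0 (fun m hm => hΦ m (hm.trans hle)) hD'
    have h2 := Ka_mono ha hle
    have h3 : 0 ≤ Ka a (64 * (n / 64)) := sum_nonneg fun i _ => ha i
    have h4 : Ka a (64 * (n / 64)) ^ 2 ≤ Ka a n ^ 2 := pow_le_pow_left₀ h3 h2 2
    have h6 : c * n ≤ c * (64 * ((n / 64 : ℕ) : ℝ) + 63) := mul_le_mul_of_nonneg_left hnR hc
    linarith

end

end Pool.Agent.U792.ND
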