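import Pool.Agent.U792.ND.Pot
import Pool.Agent.U792.ND.Step

/-!
# Expansions with bounded integer digits: the number of nonzero digits
-/

set_option autoImplicit false
set_option linter.unusedSectionVars false

open Finset

namespace Pool.Agent.U792.ND.Sg

open Pool.Agent.U278.SD

/-- the integer part of `ξ b ^ N` belonging to the digits `y` -/
def BB (b : ℕ) (y : ℕ → ℤ) : ℕ → ℤ
  | 0 => y 0
  | N + 1 => b * BB b y N + y (N + 1)

/-- the coefficients of the square -/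
def rr (y : ℕ → ℤ) (m : ℕ) : ℤ := ∑ p ∈ antidiagonal m, y p.1 * y p.2

/-- the integer part of `ξ ^ 2 b ^ N` belonging to the digits `y` -/
def SS (b : ℕ) (y : ℕ → ℤ) : ℕ → ℤ
  | 0 => rr y 0
  | N + 1 => b * SS b y N + rr y (N + 1)

/-- the indicator of the nonzero digits -/
def nz (y : ℕ → ℤ) (i : ℕ) : ℕ := if y i = 0 then 0 else 1

/-- the number of nonzero digits up to `n` -/
def kk (y : ℕ → ℤ) (n : ℕ) : ℕ := ∑ i ∈ range (n + 1), nz y i

/-- the number of ordered pairs of places of nonzero digits with sum `m` -/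
def ρ (y : ℕ → ℤ) (m : ℕ) : ℕ := ∑ p ∈ antidiagonal m, nz y p.1 * nz y p.2

/-- the indicator as a real number -/
noncomputable def nzr (y : ℕ → ℤ) (i : ℕ) : ℝ := (nz y i : ℝ)

lemma Ka_nzr (y : ℕ → ℤ) (n : ℕ) : Ka (nzr y) n = kk y n := by
  unfold Ka nzr kk; push_cast; rfl

lemma ra_nzr (y : ℕ → ℤ) (m : ℕ) : ra (nzr y) m = ρ y m := by
  unfold ra nzr ρ; push_cast; rfl

lemma kk_mono (y : ℕ → ℤ) {m n : ℕ} (h : m ≤ n) : kk y m ≤ kk y n := by
  unfold kk
  exact sum_le_sum_of_subset (range_mono (by omega))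

/-- the error of `BB` -/
noncomputable def E (b : ℕ) (ξ : ℝ) (y : ℕ → ℤ) (N : ℕ) : ℝ := ξ * (b : ℝ) ^ N - BB b y N

/-- the error of `SS` -/
noncomputable def T (b : ℕ) (ξ : ℝ) (y : ℕ → ℤ) (N : ℕ) : ℝ := ξ ^ 2 * (b : ℝ) ^ N - SS b y N

section
variable {b : ℕ} {ξ : ℝ} {y : ℕ → ℤ}

lemma E_succ (N : ℕ) : E b ξ y (N + 1) = b * E b ξ y N - y (N + 1) := by
  unfold E
  rw [BB]
  push_cast
  ring

lemma T_succ (N : ℕ) : T b ξ y (N + 1) = b * T b ξ y N - rr y (N + 1) := by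
  unfold T
  rw [SS]
  push_cast
  ring

lemma rr_succ (N : ℕ) : rr y (N + 1) = ∑ i ∈ range (N + 1), y i * y (N + 1 - i) + y (N + 1) * y 0 := by
  unfold rr
  rw [Nat.sum_antidiagonal_eq_sum_range_succ_mk, sum_range_succ, Nat.sub_self]

lemma T_eq (N : ℕ) : T b ξ y N = ∑ i ∈ range (N + 1), (y i : ℝ) * E b ξ y (N - i) +
    ξ * E b ξ y N := by
  induction N with
  | zero =>
    unfold T E SS BB rr
    simp
    ring
  | succ N ih =>
    rw [T_succ, ih, rr_succ, sum_range_succ _ (N + 1), Nat.sub_self]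
    have h1 : ∑ i ∈ range (N + 1), (y i : ℝ) * E b ξ y (N + 1 - i) =
        b * ∑ i ∈ range (N + 1), (y i : ℝ) * E b ξ y (N - i) -
          ∑ i ∈ range (N + 1), (y i : ℝ) * y (N + 1 - i) := by
      rw [mul_sum, ← sum_sub_distrib]
      refine sum_congr rfl fun i hi => ?_
      have : i ≤ N := by have := mem_range.mp hi; omega
      rw [Nat.succ_sub this, E_succ]
      ring
    rw [h1, E_succ]
    have h0 : E b ξ y 0 = ξ - y 0 := by unfold E BB; simp
    rw [h0]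
    push_cast
    ring

lemma y_le {H : ℕ} (hH : ∀ i, |y i| ≤ H) (i : ℕ) : |y i| ≤ H * nz y i := by
  unfold nz
  split_ifs with h
  · rw [h]; simp
  · simpa using hH i

variable {H : ℕ} (hH : ∀ i, |y i| ≤ H) (hE : ∀ N, |E b ξ y N| ≤ H)

include hH hE in
lemma T_le (N : ℕ) : |T b ξ y N| ≤ (H : ℝ) ^ 2 * (kk y N + 2) := by
  have hHR : (0 : ℝ) ≤ H := Nat.cast_nonneg _
  have hy : ∀ i, |(y i : ℝ)| ≤ H * nz y i := fun i => by
    have := y_le hH i
    exact_mod_cast this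
  rw [T_eq]
  have h1 : |∑ i ∈ range (N + 1), (y i : ℝ) * E b ξ y (N - i)| ≤ (H : ℝ) ^ 2 * kk y N := by
    refine (abs_sum_le_sum_abs _ _).trans ?_
    unfold kk
    push_cast
    rw [mul_sum]
    refine sum_le_sum fun i _ => ?_
    rw [abs_mul]
    calc |(y i : ℝ)| * |E b ξ y (N - i)| ≤ (H * nz y i) * H :=
          mul_le_mul (hy i) (hE _) (abs_nonneg _) (by positivity)
      _ = _ := by ring
  have h2 : |ξ| ≤ 2 * H := by
    have h3 := hE 0
    have h4 : ξ = E b ξ y 0 + y 0 := by unfold E BB; simp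
    have h5 : |(y 0 : ℝ)| ≤ H := by exact_mod_cast hH 0
    rw [h4]
    exact (abs_add_le _ _).trans (by linarith)
  have h3 : |ξ * E b ξ y N| ≤ (2 * H) * H := by
    rw [abs_mul]
    exact mul_le_mul h2 (hE N) (abs_nonneg _) (by positivity)
  refine (abs_add_le _ _).trans ?_
  nlinarith

include hH in
lemma rr_le (m : ℕ) : |rr y m| ≤ (H : ℤ) ^ 2 * ρ y m := by
  unfold rr ρ
  refine (abs_sum_le_sum_abs _ _).trans ?_
  push_cast
  rw [mul_sum]
  refine sum_le_sum fun p _ => ?_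
  rw [abs_mul]
  calc |y p.1| * |y p.2| ≤ (H * nz y p.1) * (H * nz y p.2) :=
        mul_le_mul (y_le hH _) (y_le hH _) (abs_nonneg _) (by positivity)
    _ = _ := by ring

/-- the exceptional places -/
def exc (y : ℕ → ℤ) (m : ℕ) : ℕ := if m % 2 = 0 then nz y (m / 2) else 0

lemma exc_sum_two (y : ℕ → ℤ) (n : ℕ) :
    ∑ m ∈ range (2 * n), exc y m = ∑ i ∈ range n, nz y i := by
  induction n with
  | zero => simp
  | succ n ih =>
    rw [show 2 * (n + 1) = 2 * n + 1 + 1 by ring, sum_range_succ, sum_range_succ, ih,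
      sum_range_succ]
    have h1 : exc y (2 * n) = nz y n := by
      unfold exc
      rw [if_pos (by omega)]
      congr 1; omega
    have h2 : exc y (2 * n + 1) = 0 := by
      unfold exc
      rw [if_neg (by omega)]
    rw [h1, h2, add_zero]

lemma exc_sum_succ (y : ℕ → ℤ) (n : ℕ) : ∑ m ∈ range (n + 1), exc y m ≤ kk y n := by
  calc ∑ m ∈ range (n + 1), exc y m ≤ ∑ m ∈ range (2 * (n + 1)), exc y m :=
        sum_le_sum_of_subset (range_mono (by omega))
    _ = ∑ i ∈ range (n + 1), nz y i := exc_sum_two y (n + 1)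
    _ = kk y n := rfl

lemma ρ_even (m : ℕ) (h : exc y m = 0) : ∃ p, ρ y m = 2 * p := by
  refine pair_even (nz y) m fun hm => ?_
  unfold exc at h
  rwa [if_pos hm] at h

lemma rr_even (m : ℕ) (h : exc y m = 0) : (2 : ℤ) ∣ rr y m := by
  have key : ∀ p ∈ antidiagonal m, (Prod.swap p) ∈ antidiagonal m := by
    intro p hp
    rw [HasAntidiagonal.mem_antidiagonal] at hp ⊢
    simpa [add_comm] using hp
  have hz : ((rr y m : ℤ) : ZMod 2) = 0 := by
    unfold rr
    rw [Int.cast_sum]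
    refine sum_involution (fun p _ => Prod.swap p) ?_ ?_ key ?_
    · intro p _
      simp only [Prod.fst_swap, Prod.snd_swap]
      push_cast
      rw [mul_comm ((y p.2 : ℤ) : ZMod 2)]
      exact CharTwo.add_self_eq_zero _
    · intro p hp hne heq
      rw [HasAntidiagonal.mem_antidiagonal] at hp
      have h1 : p.2 = p.1 := by
        have := congrArg Prod.fst heq
        simpa using this
      have h2 : m % 2 = 0 := by omega
      have h3 : m / 2 = p.1 := by omega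
      unfold exc nz at h
      rw [if_pos h2, h3] at h
      apply hne
      have h4 : y p.1 = 0 := by
        by_contra h5
        rw [if_neg h5] at h
        exact one_ne_zero h
      rw [h4]; simp
    · intro p _
      simp
  exact (ZMod.intCast_zmod_eq_zero_iff_dvd _ 2).mp hz

/-- exceptional places -/
def ex (y : ℕ → ℤ) (m : ℕ) : ℕ := nz y m + exc y m + (if m = 0 then 1 else 0)

/-- the integers -/
def Z (b : ℕ) (y : ℕ → ℤ) (A : ℕ) (Bc C : ℤ) (k : ℕ) : ℤ :=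
  -C * (b : ℤ) ^ k - A * SS b y k - Bc * BB b y k

/-- the potential -/
def Phi (b : ℕ) (y : ℕ → ℤ) (A : ℕ) (Bc C : ℤ) (m : ℕ) : ℕ :=
  Nat.log b ((Z b y A Bc C m).natAbs / Nat.gcd b (2 * A))

variable {A : ℕ} {Bc C : ℤ}

lemma Z_succ (k : ℕ) : Z b y A Bc C (k + 1) =
    b * Z b y A Bc C k - A * rr y (k + 1) - Bc * y (k + 1) := by
  unfold Z
  rw [SS, BB]
  ring

lemma Z_real (hq : (A : ℝ) * ξ ^ 2 + Bc * ξ + C = 0) (k : ℕ) :
    (Z b y A Bc C k : ℝ) = A * T b ξ y k + Bc * E b ξ y k := by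
  unfold Z T E
  push_cast
  linear_combination -((b : ℝ) ^ k) * hq

lemma Z_ne {q : ℕ} (hqp : q.Prime) (hqA : q ∣ A) (hqB : (q : ℤ) ∣ Bc) (hqC : ¬ (q : ℤ) ∣ C)
    (hqb : ¬ q ∣ b) (k : ℕ) : Z b y A Bc C k ≠ 0 := by
  intro h0
  have hqp' : Prime (q : ℤ) := Nat.prime_iff_prime_int.mp hqp
  unfold Z at h0
  have h1 : (q : ℤ) ∣ C * (b : ℤ) ^ k := by
    have h2 : C * (b : ℤ) ^ k = -(A * SS b y k + Bc * BB b y k) := by linarith
    rw [h2, dvd_neg]
    refine dvd_add (Dvd.dvd.mul_right ?_ _) (Dvd.dvd.mul_right hqB _)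
    exact_mod_cast hqA
  rcases hqp'.dvd_or_dvd h1 with h2 | h2
  · exact hqC h2
  · have h3 := hqp'.dvd_of_dvd_pow h2
    exact hqb (by exact_mod_cast h3)

lemma Z_dvd {k : ℕ} (hk : k ≠ 0) (hx : nz y k = 0) (hex : exc y k = 0) :
    ((Nat.gcd b (2 * A) : ℕ) : ℤ) ∣ Z b y A Bc C k := by
  obtain ⟨k, rfl⟩ : ∃ k', k = k' + 1 := ⟨k - 1, by omega⟩
  have hy : y (k + 1) = 0 := by
    by_contra h
    unfold nz at hx
    rw [if_neg h] at hx
    exact one_ne_zero hx
  rw [Z_succ, hy]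
  have h1 : ((Nat.gcd b (2 * A) : ℕ) : ℤ) ∣ (b : ℤ) := by exact_mod_cast Nat.gcd_dvd_left _ _
  have h2 : ((Nat.gcd b (2 * A) : ℕ) : ℤ) ∣ 2 * A := by exact_mod_cast Nat.gcd_dvd_right b (2 * A)
  obtain ⟨r', hr'⟩ := rr_even (y := y) (k + 1) hex
  rw [hr']
  have h3 : (b : ℤ) * Z b y A Bc C k - A * (2 * r') - Bc * 0 =
      b * Z b y A Bc C k - 2 * A * r' := by ring
  rw [h3]
  exact dvd_sub (Dvd.dvd.mul_right h1 _) (Dvd.dvd.mul_right h2 _)

include hH in
lemma step_abs (m : ℕ) : b * (Z b y A Bc C m).natAbs ≤ (Z b y A Bc C (m + 1)).natAbs +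
    A * (H ^ 2 * ρ y (m + 1)) + Bc.natAbs * (H * nz y (m + 1)) := by
  have h1 := Z_succ (b := b) (y := y) (A := A) (Bc := Bc) (C := C) m
  have h2 := rr_le hH (m + 1)
  have h3 := y_le hH (m + 1)
  zify
  have e : (b : ℤ) * Z b y A Bc C m =
      Z b y A Bc C (m + 1) + A * rr y (m + 1) + Bc * y (m + 1) := by rw [h1]; ring
  have e1 : (b : ℤ) * |Z b y A Bc C m| = |(b : ℤ) * Z b y A Bc C m| := by
    rw [abs_mul, Nat.abs_cast]
  rw [e1, e]
  refine (abs_add_le _ _).trans (add_le_add ((abs_add_le _ _).trans (add_le_add le_rfl ?_)) ?_)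
  · rw [abs_mul, Nat.abs_cast]
    exact mul_le_mul_of_nonneg_left h2 (Nat.cast_nonneg _)
  · rw [abs_mul]
    exact mul_le_mul_of_nonneg_left h3 (abs_nonneg _)

include hH in
/-- the rough inequality -/
lemma rough (hb : 2 ≤ b) (m : ℕ) :
    Phi b y A Bc C m ≤ Phi b y A Bc C (m + 1) +
      ρ y (m + 1) / 2 + (Bc.natAbs * H + A * H ^ 2 + 1) := by
  unfold Phi
  refine rough_step hb (Nat.gcd_pos_of_pos_left _ (by omega))
    (Nat.gcd_le_left _ (by omega)) ?_
  have h1 := step_abs (b := b) (A := A) (Bc := Bc) (C := C) hH m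
  have h2 : nz y (m + 1) ≤ 1 := by unfold nz; split_ifs <;> omega
  have h3 : A * (H ^ 2 * ρ y (m + 1)) ≤ b * (b * (A * H ^ 2 * ρ y (m + 1))) := by
    have e : A * (H ^ 2 * ρ y (m + 1)) = A * H ^ 2 * ρ y (m + 1) := by ring
    rw [e]
    calc A * H ^ 2 * ρ y (m + 1) ≤ b * (A * H ^ 2 * ρ y (m + 1)) :=
          Nat.le_mul_of_pos_left _ (by omega)
      _ ≤ _ := Nat.le_mul_of_pos_left _ (by omega)
  have h4 : Bc.natAbs * (H * nz y (m + 1)) ≤ b * (Bc.natAbs * H) := by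
    calc Bc.natAbs * (H * nz y (m + 1)) ≤ Bc.natAbs * (H * 1) :=
          Nat.mul_le_mul_left _ (Nat.mul_le_mul_left _ h2)
      _ = Bc.natAbs * H := by ring
      _ ≤ _ := Nat.le_mul_of_pos_left _ (by omega)
  omega

include hH in
/-- the inequality at a good place -/
lemma good (hb : 2 ≤ b) (hne : ∀ k, Z b y A Bc C k ≠ 0) {m : ℕ} (h1 : ex y m = 0)
    (h2 : ex y (m + 1) = 0) :
    2 * (1 + Phi b y A Bc C m) ≤
      Nat.log b (2 * A / Nat.gcd b (2 * A) * H ^ 2 + (b - 1)) * ρ y (m + 1) +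
        2 * Phi b y A Bc C (m + 1) := by
  set g := Nat.gcd b (2 * A) with hg
  have hg0 : 0 < g := Nat.gcd_pos_of_pos_left _ (by omega)
  unfold ex at h1 h2
  have hm0 : m ≠ 0 := by
    intro h
    rw [if_pos h] at h1
    omega
  obtain ⟨u, hu⟩ := Z_dvd (b := b) (A := A) (Bc := Bc) (C := C) (y := y) hm0 (by omega) (by omega)
  obtain ⟨v, hv⟩ := Z_dvd (b := b) (A := A) (Bc := Bc) (C := C) (y := y)
    (show m + 1 ≠ 0 by omega) (by omega) (by omega)
  rw [← hg] at hu hv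
  have hPu : Phi b y A Bc C m = Nat.log b u.natAbs := by
    unfold Phi
    rw [hu, Int.natAbs_mul, Int.natAbs_natCast, ← hg, Nat.mul_div_cancel_left _ hg0]
  have hPv : Phi b y A Bc C (m + 1) = Nat.log b v.natAbs := by
    unfold Phi
    rw [hv, Int.natAbs_mul, Int.natAbs_natCast, ← hg, Nat.mul_div_cancel_left _ hg0]
  have hu0 : 1 ≤ u.natAbs := by
    have h3 := hne m
    rw [hu] at h3
    have h4 : u ≠ 0 := right_ne_zero_of_mul h3
    exact Int.natAbs_pos.mpr h4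
  obtain ⟨p, hp⟩ := ρ_even (y := y) (m + 1) (by omega)
  have h4 := step_abs (b := b) (A := A) (Bc := Bc) (C := C) hH m
  have hnz : nz y (m + 1) = 0 := by omega
  rw [hu, hv, hnz, hp, Int.natAbs_mul, Int.natAbs_mul, Int.natAbs_natCast] at h4
  obtain ⟨q, hq⟩ : g ∣ 2 * A := Nat.gcd_dvd_right _ _
  have hq' : 2 * A / g = q := by rw [hq, Nat.mul_div_cancel_left _ hg0]
  have h5 : g * (b * u.natAbs) ≤ g * (v.natAbs + q * H ^ 2 * p) := by
    have e3 : A * (H ^ 2 * (2 * p)) = g * (q * H ^ 2 * p) := by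
      calc A * (H ^ 2 * (2 * p)) = (2 * A) * (H ^ 2 * p) := by ring
        _ = _ := by rw [hq]; ring
    rw [e3] at h4
    calc g * (b * u.natAbs) = b * (g * u.natAbs) := by ring
      _ ≤ g * v.natAbs + g * (q * H ^ 2 * p) + Bc.natAbs * (H * 0) := h4
      _ = _ := by ring
  have h6 := Nat.le_of_mul_le_mul_left h5 hg0
  have h7 : q * H ^ 2 + b ≤ b ^ (Nat.log b (q * H ^ 2 + (b - 1)) + 1) := by
    have := Nat.lt_pow_succ_log_self (b := b) (by omega) (q * H ^ 2 + (b - 1))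
    rw [Nat.succ_eq_add_one] at this
    omega
  have h8 := good_step hb hu0 h7 h6
  rw [hPu, hPv, hp, hq']
  nlinarith

/-- the constant `J` -/
lemma J_pos (hb : 2 ≤ b) (hA : 1 ≤ A) (hH1 : 1 ≤ H) :
    1 ≤ Nat.log b (2 * A / Nat.gcd b (2 * A) * H ^ 2 + (b - 1)) := by
  have hg0 : 0 < Nat.gcd b (2 * A) := Nat.gcd_pos_of_pos_left _ (by omega)
  have h1 : 1 ≤ 2 * A / Nat.gcd b (2 * A) :=
    (Nat.one_le_div_iff hg0).mpr (Nat.gcd_le_right _ (by omega))
  have h2 : 1 ≤ H ^ 2 := Nat.one_le_pow _ _ (by omega)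
  have h3 : b ^ 1 ≤ 2 * A / Nat.gcd b (2 * A) * H ^ 2 + (b - 1) := by
    rw [pow_one]
    have : 1 ≤ 2 * A / Nat.gcd b (2 * A) * H ^ 2 := Nat.one_le_iff_ne_zero.mpr (by positivity)
    omega
  exact Nat.le_log_of_pow_le (by omega) h3

include hH hE in
/-- **The inequality for the number of nonzero digits.** -/
theorem sg_main (hb : 2 ≤ b) (hA : 1 ≤ A) (hH1 : 1 ≤ H)
    (hq : (A : ℝ) * ξ ^ 2 + Bc * ξ + C = 0) (hne : ∀ k, Z b y A Bc C k ≠ 0) (n : ℕ) :
    11 / (5 * (Nat.log b (2 * A / Nat.gcd b (2 * A) * H ^ 2 + (b - 1)) : ℕ)) * n ≤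
      (kk y n : ℝ) ^ 2 + (292 * Bc.natAbs * H + 552 * A * H ^ 2 + 284) * (kk y n + 1) := by
  set J := Nat.log b (2 * A / Nat.gcd b (2 * A) * H ^ 2 + (b - 1)) with hJ
  have hJ1 : 1 ≤ J := J_pos hb hA hH1
  have hJR : (1 : ℝ) ≤ J := by exact_mod_cast hJ1
  set c : ℝ := 2 / J with hc
  have hc0 : 0 ≤ c := by positivity
  have hc2 : c ≤ 2 := by
    rw [hc, div_le_iff₀ (by linarith)]
    linarith
  have hcJ : c * J = 2 := by rw [hc]; field_simp
  set Ce : ℝ := 2 * (Bc.natAbs * H + A * H ^ 2 + 2) with hCe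
  have hCe0 : 0 ≤ Ce := by positivity
  have hkk : (0 : ℝ) ≤ kk y n := Nat.cast_nonneg _
  have hHR : (0 : ℝ) ≤ H := Nat.cast_nonneg _
  -- the potential
  have hPhi : ∀ m ≤ n, (Phi b y A Bc C m : ℝ) ≤ A * (H ^ 2 * (kk y n + 2)) + Bc.natAbs * H := by
    intro m hm
    have h1 : Phi b y A Bc C m ≤ (Z b y A Bc C m).natAbs :=
      (Nat.log_le_self _ _).trans (Nat.div_le_self _ _)
    have h2 : (Phi b y A Bc C m : ℝ) ≤ ((Z b y A Bc C m).natAbs : ℝ) := by exact_mod_cast h1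
    have h3 : (((Z b y A Bc C m).natAbs : ℕ) : ℝ) = |(Z b y A Bc C m : ℝ)| := by
      rw [Nat.cast_natAbs, Int.cast_abs]
    rw [h3, Z_real hq] at h2
    refine h2.trans ((abs_add_le _ _).trans (add_le_add ?_ ?_))
    · rw [abs_mul, Nat.abs_cast]
      apply mul_le_mul_of_nonneg_left _ (Nat.cast_nonneg _)
      refine (T_le hH hE m).trans ?_
      have h4 : (kk y m : ℝ) ≤ kk y n := by exact_mod_cast kk_mono y hm
      apply mul_le_mul_of_nonneg_left _ (by positivity)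
      linarith
    · rw [abs_mul]
      have h4 : |(Bc : ℝ)| = Bc.natAbs := by rw [Nat.cast_natAbs, Int.cast_abs]
      rw [h4]
      exact mul_le_mul_of_nonneg_left (hE m) (Nat.cast_nonneg _)
  -- the errors
  have hD : ∑ m ∈ range n, Ce * ((ex y m : ℝ) + ex y (m + 1)) ≤
      2 * Ce * (2 * kk y n + 1) := by
    rw [← mul_sum, sum_add_distrib]
    have h1 : ∑ m ∈ range (n + 1), (ex y m : ℝ) ≤ 2 * kk y n + 1 := by
      have h0 : ∑ m ∈ range (n + 1), ex y m ≤ 2 * kk y n + 1 := by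
        unfold ex
        rw [sum_add_distrib, sum_add_distrib]
        have a1 : ∑ m ∈ range (n + 1), nz y m = kk y n := rfl
        have a2 := exc_sum_succ y n
        have a3 : ∑ m ∈ range (n + 1), (if m = 0 then 1 else 0) = 1 := by
          rw [sum_ite_eq' (range (n + 1)) 0 (fun _ => 1), if_pos (mem_range.mpr (by omega))]
        omega
      exact_mod_cast h0
    have h2 : ∑ m ∈ range n, (ex y m : ℝ) ≤ ∑ m ∈ range (n + 1), (ex y m : ℝ) :=
      sum_le_sum_of_subset_of_nonneg (range_mono (by omega)) fun i _ _ => Nat.cast_nonneg _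
    have h3 : ∑ m ∈ range n, (ex y (m + 1) : ℝ) ≤
        ∑ m ∈ range (n + 1), (ex y m : ℝ) := by
      rw [sum_range_succ']
      have : (0 : ℝ) ≤ (ex y 0 : ℝ) := Nat.cast_nonneg _
      linarith
    have h4 := mul_le_mul_of_nonneg_left (add_le_add (h2.trans h1) (h3.trans h1)) hCe0
    linarith
  have hmain := main_pot (a := nzr y) (c := c) (Φ := fun m => (Phi b y A Bc C m : ℝ))
    (e := fun m => Ce * ((ex y m : ℝ) + ex y (m + 1)))
    (M := A * (H ^ 2 * (kk y n + 2)) + Bc.natAbs * H)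
    (D := 2 * Ce * (2 * kk y n + 1)) (n := n)
    (fun i => by unfold nzr; positivity) hc0 (fun m => Nat.cast_nonneg _)
    (fun m => mul_nonneg hCe0 (by positivity)) ?_ hPhi hD
  · rw [Ka_nzr] at hmain
    have e1 : 11 / (5 * (J : ℝ)) = 11 / 10 * c := by
      rw [hc]; field_simp; norm_num
    rw [e1]
    have hcM : 130 * (c * (A * (H ^ 2 * (kk y n + 2)) + Bc.natAbs * H)) ≤
        (520 * A * H ^ 2 + 260 * Bc.natAbs * H) * ((kk y n : ℝ) + 1) := by
      have f1 : (0 : ℝ) ≤ A * (H ^ 2 * (kk y n + 2)) + Bc.natAbs * H := by positivity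
      have f2 : c * (A * (H ^ 2 * (kk y n + 2)) + Bc.natAbs * H) ≤
          2 * (A * (H ^ 2 * (kk y n + 2)) + Bc.natAbs * H) := mul_le_mul_of_nonneg_right hc2 f1
      have g1 : (0 : ℝ) ≤ A * H ^ 2 * kk y n := by positivity
      have g3 : (0 : ℝ) ≤ Bc.natAbs * H * (kk y n : ℝ) := by positivity
      nlinarith
    have hD4 : 4 * (2 * Ce * (2 * kk y n + 1)) ≤
        (32 * Bc.natAbs * H + 32 * A * H ^ 2 + 64) * ((kk y n : ℝ) + 1) := by
      have g1 : (0 : ℝ) ≤ Ce := hCe0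
      have g2 : 4 * (2 * Ce * (2 * (kk y n : ℝ) + 1)) ≤ 16 * Ce * ((kk y n : ℝ) + 1) := by
        nlinarith
      refine g2.trans (le_of_eq ?_)
      rw [hCe]
      ring
    have hc110 : 110 * c ≤ 220 * ((kk y n : ℝ) + 1) := by nlinarith
    linarith
  · intro m
    rw [ra_nzr]
    have hρ0 : (0 : ℝ) ≤ ρ y (m + 1) := Nat.cast_nonneg _
    rcases Nat.eq_zero_or_pos (ex y m + ex y (m + 1)) with h0 | h0
    · have h1 : ex y m = 0 := by omega
      have h2 : ex y (m + 1) = 0 := by omega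
      have h3 := good hH hb hne h1 h2
      rw [← hJ] at h3
      have h4 : 2 * (1 + (Phi b y A Bc C m : ℝ)) ≤
          J * ρ y (m + 1) + 2 * Phi b y A Bc C (m + 1) := by exact_mod_cast h3
      rw [h1, h2]
      push_cast
      have h5 : c * (2 * (1 + (Phi b y A Bc C m : ℝ))) ≤
          c * (J * ρ y (m + 1) + 2 * Phi b y A Bc C (m + 1)) := mul_le_mul_of_nonneg_left h4 hc0
      have h6 : c * (J * ρ y (m + 1)) = 2 * ρ y (m + 1) := by
        rw [← mul_assoc, hcJ]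
      linarith
    · have h1 := rough (b := b) (A := A) (Bc := Bc) (C := C) hH hb m
      have h2 : (Phi b y A Bc C m : ℝ) ≤ Phi b y A Bc C (m + 1) + ρ y (m + 1) / 2 +
          (Bc.natAbs * H + A * H ^ 2 + 1) := by
        have e1 : ((ρ y (m + 1) / 2 : ℕ) : ℝ) ≤ (ρ y (m + 1) : ℝ) / 2 := Nat.cast_div_le
        have e2 : (Phi b y A Bc C m : ℝ) ≤ Phi b y A Bc C (m + 1) + ((ρ y (m + 1) / 2 : ℕ) : ℝ) +
          (Bc.natAbs * H + A * H ^ 2 + 1) := by exact_mod_cast h1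
        linarith
      have h3 : (1 : ℝ) ≤ (ex y m : ℝ) + ex y (m + 1) := by exact_mod_cast h0
      have h4 : Ce ≤ Ce * ((ex y m : ℝ) + ex y (m + 1)) := by nlinarith
      have h5 : c * (1 + Phi b y A Bc C m - Phi b y A Bc C (m + 1)) ≤
          c * (ρ y (m + 1) / 2 + (Bc.natAbs * H + A * H ^ 2 + 2)) :=
        mul_le_mul_of_nonneg_left (by linarith) hc0
      have h6 : c * (ρ y (m + 1) / 2 + (Bc.natAbs * H + A * H ^ 2 + 2)) ≤
          2 * (ρ y (m + 1) / 2 + (Bc.natAbs * H + A * H ^ 2 + 2)) :=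
        mul_le_mul_of_nonneg_right hc2 (by positivity)
      have h7 : 2 * ((ρ y (m + 1) : ℝ) / 2 + (Bc.natAbs * H + A * H ^ 2 + 2)) =
          ρ y (m + 1) + Ce := by
        rw [hCe]; ring
      linarith

end

end Pool.Agent.U792.ND.Sg
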